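import Pool.Agent.H91.GelHil

set_option autoImplicit false

open Metric Finset H91.GelHil in
theorem Pool.Agent.Results.MP_93c8fe_an.Q1True.result.{u, v} :
    ∀ (X : Type u) (Y : Type v) [NormedAddCommGroup X] [InnerProductSpace ℝ X]
    [CompleteSpace X] [NormedAddCommGroup Y] [NormedSpace ℝ Y] [CompleteSpace Y]
    (S : X →L[ℝ] Y), ∀ n : ℕ, 1 ≤ n → gel (n - 1) S (closedBall 0 1) ≤
        (n : ENNReal) ^ (1 / 2 : ℝ) *
          (∏ k ∈ range n, hil k S (closedBall 0 1)) ^ (1 / (n : ℝ)) :=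
  fun X Y _ _ _ _ _ _ S => (main X Y S).2
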